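import Mathlib

/-
  Topology lemma for the lower bound against choiceless polynomial time (MP_128e7d_lc).
  Abstract form over an additive group A of exponent 2 with elements eX, eY, eZ indexed by the
  edges of the grid graph {0..l-1}^3 and a subgroup S containing all boundaries of squares
  outside W = X x X' x X''.
-/

namespace CPTGrp

section rect

variable {A : Type*} [AddCommGroup A]

/-- prefix sum -/
def pre (e : ℕ → A) (n : ℕ) : A := ∑ t ∈ Finset.range n, e t

private theorem pre_succ (e : ℕ → A) (n : ℕ) : pre e (n + 1) = pre e n + e n := by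
  simp [pre, Finset.sum_range_succ]

private theorem strip0 (h2 : ∀ a : A, a + a = 0) (S : AddSubgroup A) (l : ℕ)
    (e1 e1' e2 : ℕ → A)
    (h : ∀ t, t + 1 < l → e1 t + e1' t + e2 t + e2 (t + 1) ∈ S) :
    ∀ a, a < l → pre e1 a + pre e1' a + e2 0 + e2 a ∈ S := by
  intro a
  induction a with
  | zero => intro _; simp [pre, h2, S.zero_mem]
  | succ a ih =>
    intro ha
    have h1 := ih (by omega)
    have h3 := h a ha
    have h4 := S.add_mem h1 h3
    have e : pre e1 (a + 1) + pre e1' (a + 1) + e2 0 + e2 (a + 1)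
        = (pre e1 a + pre e1' a + e2 0 + e2 a) + (e1 a + e1' a + e2 a + e2 (a + 1)) := by
      rw [pre_succ, pre_succ]
      have := h2 (e2 a)
      calc pre e1 a + e1 a + (pre e1' a + e1' a) + e2 0 + e2 (a + 1)
          = (pre e1 a + pre e1' a + e2 0) + (e1 a + e1' a + e2 (a + 1)) + 0 := by abel
        _ = (pre e1 a + pre e1' a + e2 0) + (e1 a + e1' a + e2 (a + 1)) + (e2 a + e2 a) := by
            rw [this]
        _ = _ := by abel
    rw [e]
    exact h4

/-- strip between two neighbouring lines -/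
theorem strip (h2 : ∀ a : A, a + a = 0) (S : AddSubgroup A) (l : ℕ)
    (e1 e1' e2 : ℕ → A)
    (h : ∀ t, t + 1 < l → e1 t + e1' t + e2 t + e2 (t + 1) ∈ S)
    (a b : ℕ) (ha : a < l) (hb : b < l) :
    (pre e1 a + pre e1 b) + (pre e1' a + pre e1' b) + (e2 a + e2 b) ∈ S := by
  have h1 := strip0 h2 S l e1 e1' e2 h a ha
  have h3 := strip0 h2 S l e1 e1' e2 h b hb
  have h4 := S.add_mem h1 h3
  have e : (pre e1 a + pre e1 b) + (pre e1' a + pre e1' b) + (e2 a + e2 b)
      = (pre e1 a + pre e1' a + e2 0 + e2 a) + (pre e1 b + pre e1' b + e2 0 + e2 b) := by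
    have := h2 (e2 0)
    calc (pre e1 a + pre e1 b) + (pre e1' a + pre e1' b) + (e2 a + e2 b)
        = (pre e1 a + pre e1' a + e2 a) + (pre e1 b + pre e1' b + e2 b) + 0 := by abel
      _ = (pre e1 a + pre e1' a + e2 a) + (pre e1 b + pre e1' b + e2 b) + (e2 0 + e2 0) := by
          rw [this]
      _ = _ := by abel
  rw [e]
  exact h4

/-- full rectangle -/
theorem rect (h2 : ∀ a : A, a + a = 0) (S : AddSubgroup A) (l : ℕ)
    (e1 e2 : ℕ → ℕ → A)
    (h : ∀ t s, t + 1 < l → s + 1 < l →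
      e1 t s + e1 t (s + 1) + e2 t s + e2 (t + 1) s ∈ S)
    (a b c d : ℕ) (ha : a < l) (hb : b < l) (hc : c < l) (hd : d < l) :
    (pre (fun t => e1 t c) a + pre (fun t => e1 t c) b)
      + (pre (fun t => e1 t d) a + pre (fun t => e1 t d) b)
      + ((pre (e2 a) c + pre (e2 a) d) + (pre (e2 b) c + pre (e2 b) d)) ∈ S := by
  -- strips in the second direction
  have key : ∀ s, s + 1 < l →
      (pre (fun t => e1 t s) a + pre (fun t => e1 t s) b)
      + (pre (fun t => e1 t (s + 1)) a + pre (fun t => e1 t (s + 1)) b)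
      + (e2 a s + e2 b s) ∈ S := by
    intro s hs
    exact strip h2 S l (fun t => e1 t s) (fun t => e1 t (s + 1)) (fun t => e2 t s)
      (fun t ht => h t s ht hs) a b ha hb
  have := strip h2 S l (e2 a) (e2 b) (fun s => pre (fun t => e1 t s) a + pre (fun t => e1 t s) b)
    (fun s hs => by
      have := key s hs
      have e : e2 a s + e2 b s + (pre (fun t => e1 t s) a + pre (fun t => e1 t s) b)
          + (pre (fun t => e1 t (s + 1)) a + pre (fun t => e1 t (s + 1)) b)
          = (pre (fun t => e1 t s) a + pre (fun t => e1 t s) b)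
      + (pre (fun t => e1 t (s + 1)) a + pre (fun t => e1 t (s + 1)) b)
      + (e2 a s + e2 b s) := by abel
      rw [e]; exact this) c d hc hd
  have e : (pre (fun t => e1 t c) a + pre (fun t => e1 t c) b)
      + (pre (fun t => e1 t d) a + pre (fun t => e1 t d) b)
      + ((pre (e2 a) c + pre (e2 a) d) + (pre (e2 b) c + pre (e2 b) d))
      = (pre (e2 a) c + pre (e2 a) d) + (pre (e2 b) c + pre (e2 b) d) +
        ((fun s => pre (fun t => e1 t s) a + pre (fun t => e1 t s) b) c +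
        (fun s => pre (fun t => e1 t s) a + pre (fun t => e1 t s) b) d) := by
    simp only []
    abel
  rw [e]
  exact this

end rect

section edges

variable {A : Type*} [AddCommGroup A]

private theorem mem1 (S : AddSubgroup A) {g m : A} (hm : m ∈ S) (h : g + m = 0) : g ∈ S := by
  have : g = -m := eq_neg_of_add_eq_zero_left h
  rw [this]; exact S.neg_mem hm

private theorem mem2 (S : AddSubgroup A) {g m n : A} (hm : m ∈ S) (hn : n ∈ S)
    (h : g + (m + n) = 0) : g ∈ S := mem1 S (S.add_mem hm hn) h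

private theorem mem3 (S : AddSubgroup A) {g m n o : A} (hm : m ∈ S) (hn : n ∈ S) (ho : o ∈ S)
    (h : g + (m + n + o) = 0) : g ∈ S := mem1 S (S.add_mem (S.add_mem hm hn) ho) h

private theorem mem5 (S : AddSubgroup A) {g m n o k j : A} (hm : m ∈ S) (hn : n ∈ S) (ho : o ∈ S)
    (hk : k ∈ S) (hj : j ∈ S)
    (h : g + (m + n + o + k + j) = 0) : g ∈ S :=
  mem1 S (S.add_mem (S.add_mem (S.add_mem (S.add_mem hm hn) ho) hk) hj) h

/-- the path from (x0,y0,z0) to (x,y,z) as a chain -/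
noncomputable def pathTo (q r : ℕ → Prop) (eX eY eZ : ℕ → ℕ → ℕ → A) (x0 y0 z0 x y z : ℕ) : A :=
  open Classical in
  if ¬ q y ∨ ¬ r z then
    (pre (fun t => eZ x0 y0 t) z0 + pre (fun t => eZ x0 y0 t) z)
    + (pre (fun t => eY x0 t z) y0 + pre (fun t => eY x0 t z) y)
    + (pre (fun t => eX t y z) x0 + pre (fun t => eX t y z) x)
  else
    (pre (fun t => eZ x0 y0 t) z0 + pre (fun t => eZ x0 y0 t) z)
    + (pre (fun t => eX t y0 z) x0 + pre (fun t => eX t y0 z) x)
    + (pre (fun t => eY x t z) y0 + pre (fun t => eY x t z) y)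

variable (h2 : ∀ a : A, a + a = 0) (S : AddSubgroup A) (l : ℕ) (p q r : ℕ → Prop)
  (eX eY eZ : ℕ → ℕ → ℕ → A)
  (hXY : ∀ x y z, x + 1 < l → y + 1 < l → z < l →
    ((¬ p x ∧ ¬ p (x + 1)) ∨ (¬ q y ∧ ¬ q (y + 1)) ∨ ¬ r z) →
    eX x y z + eX x (y + 1) z + eY x y z + eY (x + 1) y z ∈ S)
  (hXZ : ∀ x y z, x + 1 < l → y < l → z + 1 < l →
    ((¬ p x ∧ ¬ p (x + 1)) ∨ ¬ q y ∨ (¬ r z ∧ ¬ r (z + 1))) →
    eX x y z + eX x y (z + 1) + eZ x y z + eZ (x + 1) y z ∈ S)
  (hYZ : ∀ x y z, x < l → y + 1 < l → z + 1 < l →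
    (¬ p x ∨ (¬ q y ∧ ¬ q (y + 1)) ∨ (¬ r z ∧ ¬ r (z + 1))) →
    eY x y z + eY x y (z + 1) + eZ x y z + eZ x (y + 1) z ∈ S)
  (x0 y0 z0 : ℕ) (hx0 : x0 < l) (hy0 : y0 < l) (hz0 : z0 < l)
  (px0 : ¬ p x0) (qy0 : ¬ q y0) (rz0 : ¬ r z0)

include h2 hXY hXZ hYZ hx0 hy0 hz0 px0 qy0 rz0

private theorem boxlem (x y z : ℕ) (hx : x < l) (hy : y < l) (hz : z < l)
    (px : ¬ p x) (qy : ¬ q y) :
    (pre (fun t => eX t y0 z) x0 + pre (fun t => eX t y0 z) x)
      + (pre (fun t => eX t y z) x0 + pre (fun t => eX t y z) x)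
      + ((pre (fun t => eY x0 t z) y0 + pre (fun t => eY x0 t z) y)
        + (pre (fun t => eY x t z) y0 + pre (fun t => eY x t z) y)) ∈ S := by
  have hz2 : ∀ a : A, (2 : ℤ) • a = 0 := fun a => by rw [two_smul]; exact h2 a
  have r0 := rect h2 S l (fun t s => eX t s z0) (fun t s => eY t s z0)
    (fun t s ht hs => hXY t s z0 ht hs hz0 (Or.inr (Or.inr rz0))) x0 x y0 y hx0 hx hy0 hy
  have w1 := rect h2 S l (fun t s => eX t y0 s) (fun t s => eZ t y0 s)
    (fun t s ht hs => hXZ t y0 s ht hy0 hs (Or.inr (Or.inl qy0))) x0 x z z0 hx0 hx hz hz0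
  have w2 := rect h2 S l (fun t s => eX t y s) (fun t s => eZ t y s)
    (fun t s ht hs => hXZ t y s ht hy hs (Or.inr (Or.inl qy))) x0 x z z0 hx0 hx hz hz0
  have w3 := rect h2 S l (fun t s => eY x0 t s) (fun t s => eZ x0 t s)
    (fun t s ht hs => hYZ x0 t s hx0 ht hs (Or.inl px0)) y0 y z z0 hy0 hy hz hz0
  have w4 := rect h2 S l (fun t s => eY x t s) (fun t s => eZ x t s)
    (fun t s ht hs => hYZ x t s hx ht hs (Or.inl px)) y0 y z z0 hy0 hy hz hz0
  refine mem5 S r0 w1 w2 w3 w4 ?_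
  abel_nf
  simp [hz2]

theorem edgeX (x y z : ℕ) (hx : x + 1 < l) (hy : y < l) (hz : z < l)
    (h1 : ¬ (p x ∧ q y ∧ r z)) (h1' : ¬ (p (x + 1) ∧ q y ∧ r z)) :
    eX x y z + (pathTo q r eX eY eZ x0 y0 z0 x y z + pathTo q r eX eY eZ x0 y0 z0 (x + 1) y z)
      ∈ S := by
  have hz2 : ∀ a : A, (2 : ℤ) • a = 0 := fun a => by rw [two_smul]; exact h2 a
  unfold pathTo
  by_cases c : ¬ q y ∨ ¬ r z
  · rw [if_pos c, if_pos c, pre_succ]
    refine mem1 S S.zero_mem ?_
    abel_nf
    simp [hz2]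
  · rw [if_neg c, if_neg c, pre_succ]
    have c' : q y ∧ r z := by
      simpa [not_or, not_not] using c
    have px : ¬ p x := fun h => h1 ⟨h, c'⟩
    have px' : ¬ p (x + 1) := fun h => h1' ⟨h, c'⟩
    have s1 := strip h2 S l (fun t => eY x t z) (fun t => eY (x + 1) t z) (fun t => eX x t z)
      (fun t ht => by
        have := hXY x t z hx ht hz (Or.inl ⟨px, px'⟩)
        have e : eY x t z + eY (x + 1) t z + eX x t z + eX x (t + 1) z
          = eX x t z + eX x (t + 1) z + eY x t z + eY (x + 1) t z := by abel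
        rw [e]; exact this) y0 y hy0 hy
    refine mem1 S s1 ?_
    abel_nf
    simp [hz2]

theorem edgeY (x y z : ℕ) (hx : x < l) (hy : y + 1 < l) (hz : z < l)
    (h1 : ¬ (p x ∧ q y ∧ r z)) (h1' : ¬ (p x ∧ q (y + 1) ∧ r z)) :
    eY x y z + (pathTo q r eX eY eZ x0 y0 z0 x y z + pathTo q r eX eY eZ x0 y0 z0 x (y + 1) z)
      ∈ S := by
  have hz2 : ∀ a : A, (2 : ℤ) • a = 0 := fun a => by rw [two_smul]; exact h2 a
  have box := boxlem h2 S l p q r eX eY eZ hXY hXZ hYZ x0 y0 z0 hx0 hy0 hz0 px0 qy0 rz0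
  unfold pathTo
  by_cases c : ¬ r z ∨ (¬ q y ∧ ¬ q (y + 1))
  · have c1 : ¬ q y ∨ ¬ r z := by tauto
    have c2 : ¬ q (y + 1) ∨ ¬ r z := by tauto
    rw [if_pos c1, if_pos c2, pre_succ]
    have s1 := strip h2 S l (fun t => eX t y z) (fun t => eX t (y + 1) z) (fun t => eY t y z)
      (fun t ht => hXY t y z ht hy hz (by tauto)) x0 x hx0 hx
    refine mem1 S s1 ?_
    abel_nf
    simp [hz2]
  · have rz : r z := by tauto
    by_cases c1 : q y
    · have px : ¬ p x := fun h => h1 ⟨h, c1, rz⟩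
      by_cases c2 : q (y + 1)
      · rw [if_neg (by tauto), if_neg (by tauto), pre_succ]
        refine mem1 S S.zero_mem ?_
        abel_nf
        simp [hz2]
      · rw [if_neg (by tauto), if_pos (by tauto), pre_succ]
        have b := box x (y + 1) z hx hy hz px c2
        rw [pre_succ, pre_succ] at b
        refine mem1 S b ?_
        abel_nf
        simp [hz2]
    · have c2 : q (y + 1) := by tauto
      have px : ¬ p x := fun h => h1' ⟨h, c2, rz⟩
      rw [if_pos (by tauto), if_neg (by tauto), pre_succ]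
      have b := box x y z hx (by omega) hz px c1
      refine mem1 S b ?_
      abel_nf
      simp [hz2]

theorem edgeZ (x y z : ℕ) (hx : x < l) (hy : y < l) (hz : z + 1 < l)
    (h1 : ¬ (p x ∧ q y ∧ r z)) (h1' : ¬ (p x ∧ q y ∧ r (z + 1))) :
    eZ x y z + (pathTo q r eX eY eZ x0 y0 z0 x y z + pathTo q r eX eY eZ x0 y0 z0 x y (z + 1))
      ∈ S := by
  have hz2 : ∀ a : A, (2 : ℤ) • a = 0 := fun a => by rw [two_smul]; exact h2 a
  -- strips
  have sx0 := strip h2 S l (fun t => eY x0 t z) (fun t => eY x0 t (z + 1)) (fun t => eZ x0 t z)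
      (fun t ht => hYZ x0 t z hx0 ht hz (Or.inl px0)) y0 y hy0 hy
  have sy0 := strip h2 S l (fun t => eX t y0 z) (fun t => eX t y0 (z + 1)) (fun t => eZ t y0 z)
      (fun t ht => hXZ t y0 z ht hy0 hz (Or.inr (Or.inl qy0))) x0 x hx0 hx
  unfold pathTo
  by_cases c : ¬ q y ∨ (¬ r z ∧ ¬ r (z + 1))
  · rw [if_pos (by tauto), if_pos (by tauto), pre_succ]
    have s2 := strip h2 S l (fun t => eX t y z) (fun t => eX t y (z + 1)) (fun t => eZ t y z)
      (fun t ht => hXZ t y z ht hy hz (by tauto)) x0 x hx0 hx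
    refine mem2 S sx0 s2 ?_
    abel_nf
    simp [hz2]
  · have px : ¬ p x := by tauto
    have sx := strip h2 S l (fun t => eY x t z) (fun t => eY x t (z + 1)) (fun t => eZ x t z)
      (fun t ht => hYZ x t z hx ht hz (Or.inl px)) y0 y hy0 hy
    by_cases c1 : r z
    · by_cases c2 : r (z + 1)
      · rw [if_neg (by tauto), if_neg (by tauto), pre_succ]
        refine mem2 S sy0 sx ?_
        abel_nf
        simp [hz2]
      · rw [if_neg (by tauto), if_pos (by tauto), pre_succ]
        have r1 := rect h2 S l (fun t s => eX t s (z + 1)) (fun t s => eY t s (z + 1))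
          (fun t s ht hs => hXY t s (z + 1) ht hs hz (Or.inr (Or.inr c2))) x0 x y0 y hx0 hx hy0 hy
        refine mem3 S sy0 sx r1 ?_
        abel_nf
        simp [hz2]
    · rw [if_pos (by tauto), if_neg (by tauto), pre_succ]
      have r1 := rect h2 S l (fun t s => eX t s z) (fun t s => eY t s z)
          (fun t s ht hs => hXY t s z ht hs (by omega) (Or.inr (Or.inr c1))) x0 x y0 y hx0 hx hy0 hy
      refine mem3 S sy0 sx r1 ?_
      abel_nf
      simp [hz2]

end edges

section cycle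

variable {A : Type*} [AddCommGroup A]

/-- an even set of edges, each of which is homologous to the sum of the two chosen paths -/
theorem even_sum_mem {I V : Type*} [DecidableEq V] (h2 : ∀ a : A, a + a = 0)
    (S : AddSubgroup A) (Z : Finset I) (src tgt : I → V) (e : I → A) (P : V → A)
    (heven : ∀ v, Even ((Z.filter (fun i => src i = v)).card + (Z.filter (fun i => tgt i = v)).card))
    (h : ∀ i ∈ Z, e i + (P (src i) + P (tgt i)) ∈ S) :
    ∑ i ∈ Z, e i ∈ S := by
  have h1 : ∑ i ∈ Z, (e i + (P (src i) + P (tgt i))) ∈ S := S.sum_mem h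
  rw [Finset.sum_add_distrib, Finset.sum_add_distrib] at h1
  set U : Finset V := Z.image src ∪ Z.image tgt with hU
  have hs : ∑ i ∈ Z, P (src i) = ∑ v ∈ U, (Z.filter (fun i => src i = v)).card • P v := by
    rw [← Finset.sum_fiberwise_of_maps_to (s := Z) (t := U) (g := src)
      (fun i hi => Finset.mem_union_left _ (Finset.mem_image_of_mem _ hi))]
    refine Finset.sum_congr rfl fun v _ => ?_
    rw [← Finset.sum_const]
    exact Finset.sum_congr rfl fun i hi => by rw [(Finset.mem_filter.1 hi).2]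
  have ht : ∑ i ∈ Z, P (tgt i) = ∑ v ∈ U, (Z.filter (fun i => tgt i = v)).card • P v := by
    rw [← Finset.sum_fiberwise_of_maps_to (s := Z) (t := U) (g := tgt)
      (fun i hi => Finset.mem_union_right _ (Finset.mem_image_of_mem _ hi))]
    refine Finset.sum_congr rfl fun v _ => ?_
    rw [← Finset.sum_const]
    exact Finset.sum_congr rfl fun i hi => by rw [(Finset.mem_filter.1 hi).2]
  have h0 : ∑ i ∈ Z, P (src i) + ∑ i ∈ Z, P (tgt i) = 0 := by
    rw [hs, ht, ← Finset.sum_add_distrib]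
    refine Finset.sum_eq_zero fun v _ => ?_
    rw [← add_smul]
    obtain ⟨k, hk⟩ := heven v
    rw [hk, add_smul]
    exact h2 _
  rw [h0, add_zero] at h1
  exact h1

end cycle

end CPTGrp
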