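/-
  Group lemma for the lower bound against choiceless polynomial time (MP_128e7d_lc).
  If pairwise commuting normal perfect subgroups Gam i and a subgroup H of finite index q are
  given, then Gam i is contained in H for all but 2 log_2 q of the indices i.
-/
import Mathlib

open scoped commutatorElement

namespace CPTGrp

variable {G : Type*} [Group G] {ι : Type*}

private theorem two_mul_index_le {A B : Subgroup G} (h : A < B) [A.FiniteIndex] :
    2 * B.index ≤ A.index := by
  have h1 : A.relIndex B * B.index = A.index := Subgroup.relIndex_mul_index h.le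
  have h2 : A.relIndex B ≠ 0 := by
    intro h0
    rw [h0, zero_mul] at h1
    exact Subgroup.FiniteIndex.index_ne_zero h1.symm
  have h3 : A.relIndex B ≠ 1 := by
    intro h0
    rw [Subgroup.relIndex_eq_one] at h0
    exact absurd h0 (not_le_of_gt h)
  have h4 : 2 ≤ A.relIndex B := by omega
  calc 2 * B.index ≤ A.relIndex B * B.index := Nat.mul_le_mul_right _ h4
    _ = A.index := h1

private theorem greedy (Gam : ι → Subgroup G) (H : Subgroup G) [H.FiniteIndex] (T : Finset ι) :
    ∃ s : Finset ι, s ⊆ T ∧ 2 ^ s.card * (H ⊔ ⨆ i ∈ s, Gam i).index ≤ H.index ∧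
      ∀ i ∈ T, Gam i ≤ H ⊔ ⨆ i ∈ s, Gam i := by
  classical
  induction T using Finset.induction_on with
  | empty => exact ⟨∅, by simp, by simp, by simp⟩
  | insert j T hj ih =>
    obtain ⟨s, hs, hc, hg⟩ := ih
    by_cases hjs : Gam j ≤ H ⊔ ⨆ i ∈ s, Gam i
    · refine ⟨s, hs.trans (Finset.subset_insert _ _), hc, ?_⟩
      intro i hi
      rcases Finset.mem_insert.1 hi with rfl | hi
      · exact hjs
      · exact hg i hi
    · have hjs' : j ∉ s := fun h => hj (hs h)
      have hsup : (⨆ i ∈ insert j s, Gam i) = Gam j ⊔ ⨆ i ∈ s, Gam i :=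
        Finset.iSup_insert j s Gam
      have hle : H ⊔ ⨆ i ∈ s, Gam i ≤ H ⊔ ⨆ i ∈ insert j s, Gam i := by
        rw [hsup]
        exact sup_le_sup_left le_sup_right _
      have hlt : H ⊔ ⨆ i ∈ s, Gam i < H ⊔ ⨆ i ∈ insert j s, Gam i := by
        refine lt_of_le_of_ne hle ?_
        intro h
        apply hjs
        rw [h, hsup]
        exact le_sup_left.trans le_sup_right
      have hfi : (H ⊔ ⨆ i ∈ s, Gam i).FiniteIndex :=
        Subgroup.finiteIndex_of_le (H := H) le_sup_left
      refine ⟨insert j s, Finset.insert_subset_insert _ hs, ?_, ?_⟩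
      · rw [Finset.card_insert_of_notMem hjs', pow_succ, mul_assoc]
        exact le_trans (Nat.mul_le_mul_left _ (two_mul_index_le hlt)) hc
      · intro i hi
        rcases Finset.mem_insert.1 hi with rfl | hi
        · rw [hsup]
          exact le_sup_left.trans le_sup_right
        · exact (hg i hi).trans hle

private theorem sup_commute (Gam : ι → Subgroup G)
    (hcomm : ∀ i j, i ≠ j → ∀ a ∈ Gam i, ∀ b ∈ Gam j, a * b = b * a)
    (s u : Finset ι) (hd : Disjoint s u) :
    ∀ a ∈ ⨆ i ∈ s, Gam i, ∀ b ∈ ⨆ i ∈ u, Gam i, a * b = b * a := by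
  classical
  have h1 : (⨆ i ∈ s, Gam i) ≤ Subgroup.centralizer ((⨆ i ∈ u, Gam i : Subgroup G) : Set G) := by
    refine iSup₂_le ?_
    intro i hi
    have h2 : (⨆ j ∈ u, Gam j) ≤ Subgroup.centralizer ((Gam i : Subgroup G) : Set G) := by
      refine iSup₂_le ?_
      intro j hj b hb
      rw [Subgroup.mem_centralizer_iff]
      intro a ha
      exact hcomm i j (fun h => (Finset.disjoint_left.1 hd hi) (h ▸ hj)) a ha b hb
    intro a ha
    rw [Subgroup.mem_centralizer_iff]
    intro b hb
    have := h2 hb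
    rw [Subgroup.mem_centralizer_iff] at this
    exact (this a ha).symm
  intro a ha b hb
  have := h1 ha
  rw [Subgroup.mem_centralizer_iff] at this
  exact (this b hb).symm

/-- GROUP LEMMA. -/
theorem card_bad_le [Fintype ι] (Gam : ι → Subgroup G)
    (hnorm : ∀ i, (Gam i).Normal)
    (hcomm : ∀ i j, i ≠ j → ∀ a ∈ Gam i, ∀ b ∈ Gam j, a * b = b * a)
    (hperf : ∀ i, Gam i ≤ ⁅Gam i, Gam i⁆)
    (H : Subgroup G) [H.FiniteIndex] :
    ∃ J : Finset ι, (∀ i, i ∉ J → Gam i ≤ H) ∧ 2 ^ J.card ≤ H.index ^ 2 := by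
  classical
  obtain ⟨s, -, hsc, hsg⟩ := greedy Gam H Finset.univ
  obtain ⟨u, huT, huc, hug⟩ := greedy Gam H (Finset.univ \ s)
  have hds : Disjoint s u := by
    rw [Finset.disjoint_left]
    intro i hi hu
    exact (Finset.mem_sdiff.1 (huT hu)).2 hi
  refine ⟨s ∪ u, ?_, ?_⟩
  · intro i hi
    have his : i ∉ s := fun h => hi (Finset.mem_union_left _ h)
    have hiu : i ∉ u := fun h => hi (Finset.mem_union_right _ h)
    refine (hperf i).trans ?_
    rw [Subgroup.commutator_le]
    intro a ha b hb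
    have hnS : (⨆ j ∈ s, Gam j).Normal := by
      have := hnorm
      infer_instance
    have hnU : (⨆ j ∈ u, Gam j).Normal := by
      have := hnorm
      infer_instance
    have ha' := hsg i (Finset.mem_univ _) ha
    have hb' := hug i (by simp [his]) hb
    rw [Subgroup.mem_sup_of_normal_right] at ha' hb'
    obtain ⟨y, hy, z, hz, rfl⟩ := ha'
    obtain ⟨y', hy', z', hz', rfl⟩ := hb'
    have hsi : Disjoint s {i} := by simpa using his
    have hui : Disjoint u {i} := by simpa using hiu
    have e : (⨆ j ∈ ({i} : Finset ι), Gam j) = Gam i := by simp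
    have c1 : z * (y * z) = (y * z) * z :=
      sup_commute Gam hcomm s {i} hsi z hz _ (by rw [e]; exact ha)
    have c2 : z * (y' * z') = (y' * z') * z :=
      sup_commute Gam hcomm s {i} hsi z hz _ (by rw [e]; exact hb)
    have c3 : z' * (y * z) = (y * z) * z' :=
      sup_commute Gam hcomm u {i} hui z' hz' _ (by rw [e]; exact ha)
    have c4 : z' * (y' * z') = (y' * z') * z' :=
      sup_commute Gam hcomm u {i} hui z' hz' _ (by rw [e]; exact hb)
    have c5 : z * z' = z' * z := sup_commute Gam hcomm s u hds z hz z' hz'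
    have d1 : Commute z (y * z) := c1
    have d2 : Commute z (y' * z') := c2
    have d3 : Commute z' (y * z) := c3
    have d4 : Commute z' (y' * z') := c4
    have d5 : Commute z z' := c5
    have key : ⁅y * z, y' * z'⁆ = ⁅y, y'⁆ := by
      have hy1 : y = (y * z) * z⁻¹ := by group
      have hy2 : y' = (y' * z') * z'⁻¹ := by group
      generalize y * z = a at *
      generalize y' * z' = b at *
      subst hy1 hy2
      have f1 : Commute z⁻¹ b := d2.inv_left
      have f2 : Commute z⁻¹ z'⁻¹ := d5.inv_inv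
      have f3 : Commute z'⁻¹ a⁻¹ := d3.inv_inv
      rw [commutatorElement_def, commutatorElement_def, mul_inv_rev, mul_inv_rev, inv_inv, inv_inv]
      calc a * b * a⁻¹ * b⁻¹ = a * (b * (z⁻¹ * z'⁻¹ * z * z')) * a⁻¹ * b⁻¹ := by
            rw [f2.eq]; group
        _ = a * z⁻¹ * (b * z'⁻¹) * (z * a⁻¹) * (z' * b⁻¹) := by
            have g1 : b * (z⁻¹ * z'⁻¹ * z * z') = z⁻¹ * b * z'⁻¹ * z * z' := by
              rw [f1.eq]; group
            have g2 : z' * a⁻¹ = a⁻¹ * z' := (d3.inv_right).eq
            rw [g1]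
            calc a * (z⁻¹ * b * z'⁻¹ * z * z') * a⁻¹ * b⁻¹
                = a * z⁻¹ * b * z'⁻¹ * z * (z' * a⁻¹) * b⁻¹ := by group
              _ = a * z⁻¹ * (b * z'⁻¹) * (z * a⁻¹) * (z' * b⁻¹) := by rw [g2]; group
    rw [key]
    exact H.mul_mem (H.mul_mem (H.mul_mem hy hy') (H.inv_mem hy)) (H.inv_mem hy')
  · have h1 : 0 < (H ⊔ ⨆ i ∈ s, Gam i).index := by
      have : (H ⊔ ⨆ i ∈ s, Gam i).FiniteIndex := Subgroup.finiteIndex_of_le (H := H) le_sup_left
      exact Nat.pos_of_ne_zero Subgroup.FiniteIndex.index_ne_zero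
    have h2 : 0 < (H ⊔ ⨆ i ∈ u, Gam i).index := by
      have : (H ⊔ ⨆ i ∈ u, Gam i).FiniteIndex := Subgroup.finiteIndex_of_le (H := H) le_sup_left
      exact Nat.pos_of_ne_zero Subgroup.FiniteIndex.index_ne_zero
    rw [Finset.card_union_of_disjoint hds, pow_add, sq]
    exact Nat.mul_le_mul ((Nat.le_mul_of_pos_right _ h1).trans hsc)
      ((Nat.le_mul_of_pos_right _ h2).trans huc)


private theorem h20 : (2 : ZMod 5) ≠ 0 := by decide
private theorem h21 : (2 : ZMod 5) ^ 2 ≠ 1 := by decide

/-- SL(2,5) is perfect. -/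
theorem sl25_perfect :
    commutator (Matrix.SpecialLinearGroup (Fin 2) (ZMod 5)) = ⊤ := by
  have : Fact (Nat.Prime 5) := ⟨by decide⟩
  rw [eq_top_iff]
  intro g _
  refine Matrix.SL2.transvection_induction (fun g => g ∈ commutator _) ?_ ?_ g
  · intro i j h c
    exact Matrix.transvection_mem_commutator (a := (2 : ZMod 5)) h20 h21 h c
  · intro A B hA hB
    exact mul_mem hA hB

/-- the central element -1 -/
theorem sl25_neg_one :
    ∃ c : Matrix.SpecialLinearGroup (Fin 2) (ZMod 5), c ≠ 1 ∧ c * c = 1 ∧ ∀ g, c * g = g * c := by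
  have : Fact (Even (Fintype.card (Fin 2))) := ⟨by decide⟩
  refine ⟨-1, ?_, ?_, ?_⟩
  · intro h
    have := congrArg (fun M : Matrix.SpecialLinearGroup (Fin 2) (ZMod 5) => M.1 0 0) h
    simp at this
    exact absurd this (by decide)
  · simp
  · intro g
    simp

end CPTGrp
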